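import Mathlib
import Pool.Agent.H57.EQ.Targets

/-!
# SYS: systems of points with copied colours
-/

set_option autoImplicit false

namespace Pool.Agent.H59.EQM

open Pool.Agent.H68.BP Pool.Agent.H58.SF Pool.Agent.H53.GC Pool.Agent.H57.EQ

theorem pf_SYS : T_SYS := by
  classical
  intro σ V X _ 𝔸 M c fr hs W _ _ u r hr
  have hW : Fintype W := Fintype.ofFinite W
  let e0 : Fin (Fintype.card W) ≃o W := Fintype.orderIsoFinOfCardEq W rfl
  let d : Fin (Fintype.card W) → Fin (Fintype.card W) → X := fun i j =>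
    if r (e0 i) (e0 j) ∧ u (e0 i) ≠ u (e0 j) then (c (u (e0 i)) (u (e0 j))).getD fr else fr
  have hd : ∀ i j, r (e0 i) (e0 j) → u (e0 i) ≠ u (e0 j) →
      c (u (e0 i)) (u (e0 j)) = some (d i j) := by
    intro i j h1 h2
    show c (u (e0 i)) (u (e0 j)) =
      some (if r (e0 i) (e0 j) ∧ u (e0 i) ≠ u (e0 j) then (c (u (e0 i)) (u (e0 j))).getD fr else fr)
    rw [if_pos ⟨h1, h2⟩]
    cases h3 : c (u (e0 i)) (u (e0 j)) with
    | none => exact absurd ((hs.col.none_iff _ _).1 h3) h2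
    | some t => rfl
  have hd' : ∀ i j, ¬ (r (e0 i) (e0 j) ∧ u (e0 i) ≠ u (e0 j)) → d i j = fr :=
    fun i j h => if_neg h
  obtain ⟨f, hf, hf2⟩ := hs.uni _ d (by
    intro m s _ _ h
    refine ⟨fun i => u (e0 (s i)), ?_⟩
    intro i j hij
    have h1 : r (e0 (s i)) (e0 (s j)) ∧ u (e0 (s i)) ≠ u (e0 (s j)) := by
      by_contra h2
      exact h i j hij (hd' _ _ h2)
    exact hd _ _ h1.1 h1.2)
  have key : ∀ n n', n < n' →
      (r n n' → u n ≠ u n' → c (f (e0.symm n)) (f (e0.symm n')) = c (u n) (u n')) ∧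
        (¬ (r n n' ∧ u n ≠ u n') → c (f (e0.symm n)) (f (e0.symm n')) = some fr) := by
    intro n n' hn
    have h1 := hf2 (e0.symm n) (e0.symm n') (e0.symm.strictMono hn)
    refine ⟨?_, ?_⟩
    · intro h2 h3
      have h4 := hd (e0.symm n) (e0.symm n')
      rw [OrderIso.apply_symm_apply, OrderIso.apply_symm_apply] at h4
      rw [h1, h4 h2 h3]
    · intro h2
      have h4 := hd' (e0.symm n) (e0.symm n')
      rw [OrderIso.apply_symm_apply, OrderIso.apply_symm_apply] at h4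
      rw [h1, h4 h2]
  refine ⟨fun w => f (e0.symm w), hf.comp e0.symm.strictMono, ?_⟩
  intro n n' hne
  rcases lt_or_gt_of_ne hne with h | h
  · exact key n n' h
  · have h1 := key n' n h
    have h2 := hs.col.symm (f (e0.symm n)) (f (e0.symm n'))
    refine ⟨?_, ?_⟩
    · intro h3 h4
      show c (f (e0.symm n)) (f (e0.symm n')) = _
      rw [h2, h1.1 (hr _ _ h3) (Ne.symm h4)]
      exact hs.col.symm _ _
    · intro h3
      show c (f (e0.symm n)) (f (e0.symm n')) = _
      rw [h2]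
      exact h1.2 (fun h5 => h3 ⟨hr _ _ h5.1, Ne.symm h5.2⟩)

end Pool.Agent.H59.EQM
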